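import Pool.Agent.EMT.SW.Fib

set_option autoImplicit false

/-!
# Counting lemma
-/

namespace Pool.Agent.EMT.SW

theorem ncard_fib {α β : Type} [Finite α] [Finite β] (f : α → β) (S : Set α) (R : Set β) (m : ℕ)
    (hf : ∀ a ∈ S, f a ∈ R) (hm : ∀ b ∈ R, {a | a ∈ S ∧ f a = b}.ncard ≤ m) :
    S.ncard ≤ m * R.ncard := by
  classical
  have := Fintype.ofFinite α
  have := Fintype.ofFinite β
  rw [Set.ncard_eq_toFinset_card' S, Set.ncard_eq_toFinset_card' R]
  refine Finset.card_le_mul_card_image_of_maps_to (f := f) (fun a ha => ?_) m (fun b hb => ?_)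
  · rw [Set.mem_toFinset] at ha ⊢
    exact hf a ha
  · rw [Set.mem_toFinset] at hb
    refine le_trans (le_of_eq ?_) (hm b hb)
    rw [Set.ncard_eq_toFinset_card']
    congr 1
    ext a
    simp

instance {V : Type} [Finite V] : Finite (SimpleGraph V) :=
  Finite.of_injective (fun G : SimpleGraph V => G.Adj) (fun _ _ h => SimpleGraph.ext h)

end Pool.Agent.EMT.SW
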