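import Pool.Agent.EMT.SW.Defs

set_option autoImplicit false

/-!
# Moving vertices of degree at most two in a tree: degrees
-/

namespace Pool.Agent.EMT.SW

variable {V : Type} [Finite V]

theorem mv_nb_x {T : SimpleGraph V} {x v : V} (h : x ≠ v) : (mv T x v).neighborSet x = {v} := by
  ext b
  simp only [SimpleGraph.mem_neighborSet, Set.mem_singleton_iff]
  exact mv_adj_x h

theorem mv_nb_far {T : SimpleGraph V} {x v a : V} (hax : a ≠ x) (hav : a ≠ v)
    (hT : ¬ T.Adj a x) : (mv T x v).neighborSet a = T.neighborSet a := by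
  ext b
  simp only [SimpleGraph.mem_neighborSet]
  by_cases hb : b = x
  · subst hb
    constructor
    · rintro ⟨h0, ⟨h1, -⟩ | ⟨h1, -⟩ | ⟨-, h2, -⟩⟩
      · exact absurd h1 hax
      · exact absurd h1 hav
      · exact absurd rfl h2
    · intro h
      exact absurd h hT
  · rw [mv_adj_ne hax hb]
    constructor
    · rintro ⟨h0, h1 | ⟨h1, -⟩⟩
      · exact h1
      · exact absurd h1 hT
    · intro h
      exact ⟨h.ne, Or.inl h⟩

theorem mv_nb_v {T : SimpleGraph V} {x v : V} (h : x ≠ v) (hT : ¬ T.Adj v x) :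
    (mv T x v).neighborSet v = insert x (T.neighborSet v) := by
  ext b
  simp only [SimpleGraph.mem_neighborSet, Set.mem_insert_iff]
  by_cases hb : b = x
  · subst hb
    constructor
    · intro _
      exact Or.inl rfl
    · intro _
      exact ((mv_adj_x h).2 rfl).symm
  · rw [mv_adj_ne h.symm hb]
    constructor
    · rintro ⟨h0, h1 | ⟨h1, -⟩⟩
      · exact Or.inr h1
      · exact absurd h1 hT
    · rintro (h1 | h1)
      · exact absurd h1 hb
      · exact ⟨h1.ne, Or.inl h1⟩

/-- the neighbours of `a ≠ x` after the move, when `a` was adjacent to `x` -/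
private theorem mv_sub {T : SimpleGraph V} {x v a b : V} (hax : a ≠ x)
    (hb : (mv T x v).Adj a b) (hbx : b ≠ x) :
    b ∈ (T.neighborSet a \ {x}) ∪ (T.neighborSet x \ {a}) := by
  obtain ⟨h0, h1 | ⟨-, h2⟩⟩ := (mv_adj_ne hax hbx).1 hb
  · exact Or.inl ⟨h1, hbx⟩
  · exact Or.inr ⟨h2.symm, h0.symm⟩

/-- the degree of `a ≠ x, v` does not grow: if `a` is adjacent to `x`, it loses `x` and gets at most
one new neighbour (the other neighbour of `x`) -/
theorem mv_dg_le {T : SimpleGraph V} {x v a : V} (hxv : x ≠ v) (hd : dg T x ≤ 2) (hax : a ≠ x)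
    (hav : a ≠ v) : dg (mv T x v) a ≤ dg T a := by
  by_cases hT : T.Adj a x
  · have hsub : (mv T x v).neighborSet a ⊆ (T.neighborSet a \ {x}) ∪ (T.neighborSet x \ {a}) := by
      intro b hb
      rw [SimpleGraph.mem_neighborSet] at hb
      refine mv_sub hax hb ?_
      rintro rfl
      exact hav ((mv_adj_x hxv).1 hb.symm)
    have h1 : (T.neighborSet a \ {x}).ncard = (T.neighborSet a).ncard - 1 :=
      Set.ncard_sdiff_singleton_of_mem hT
    have h2 : (T.neighborSet x \ {a}).ncard = (T.neighborSet x).ncard - 1 :=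
      Set.ncard_sdiff_singleton_of_mem hT.symm
    have h3 : 0 < (T.neighborSet a).ncard := (Set.ncard_pos (Set.toFinite _)).2 ⟨x, hT⟩
    have h4 := Set.ncard_le_ncard hsub (Set.toFinite _)
    have h5 := Set.ncard_union_le (T.neighborSet a \ {x}) (T.neighborSet x \ {a})
    unfold dg at *
    omega
  · unfold dg
    rw [mv_nb_far hax hav hT]

theorem mv_dg_v {T : SimpleGraph V} {x v : V} (hxv : x ≠ v) (hd : dg T x ≤ 2) :
    dg (mv T x v) v ≤ dg T v + 1 := by
  by_cases hT : T.Adj v x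
  · have hsub : (mv T x v).neighborSet v ⊆
        insert x ((T.neighborSet v \ {x}) ∪ (T.neighborSet x \ {v})) := by
      intro b hb
      rw [SimpleGraph.mem_neighborSet] at hb
      by_cases hbx : b = x
      · exact Or.inl hbx
      · exact Or.inr (mv_sub hxv.symm hb hbx)
    have h1 : (T.neighborSet v \ {x}).ncard = (T.neighborSet v).ncard - 1 :=
      Set.ncard_sdiff_singleton_of_mem hT
    have h2 : (T.neighborSet x \ {v}).ncard = (T.neighborSet x).ncard - 1 :=
      Set.ncard_sdiff_singleton_of_mem hT.symm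
    have h3 : 0 < (T.neighborSet v).ncard := (Set.ncard_pos (Set.toFinite _)).2 ⟨x, hT⟩
    have h4 := Set.ncard_le_ncard hsub (Set.toFinite _)
    have h5 := Set.ncard_insert_le x ((T.neighborSet v \ {x}) ∪ (T.neighborSet x \ {v}))
    have h6 := Set.ncard_union_le (T.neighborSet v \ {x}) (T.neighborSet x \ {v})
    unfold dg at *
    omega
  · unfold dg
    rw [mv_nb_v hxv hT]
    exact Set.ncard_insert_le _ _

theorem mv_dg_x {T : SimpleGraph V} {x v : V} (hxv : x ≠ v) : dg (mv T x v) x = 1 := by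
  unfold dg
  rw [mv_nb_x hxv, Set.ncard_singleton]

/-- new pairs of adjacent vertices of degree twelve -/
theorem mv_dp {T : SimpleGraph V} (hT : ∀ a, dg T a ≤ 12) {x v : V} (hxv : x ≠ v)
    (hd : dg T x ≤ 2) {p : V × V} (hp : p ∈ dp (mv T x v)) :
    p.1 = v ∨ p.2 = v ∨ p ∈ dp T ∨ (p.1 ∈ T.neighborSet x ∧ p.2 ∈ T.neighborSet x ∧ p.1 ≠ p.2) := by
  obtain ⟨h0, h1, h2⟩ := hp
  by_cases h1v : p.1 = v
  · exact Or.inl h1v
  by_cases h2v : p.2 = v
  · exact Or.inr (Or.inl h2v)
  have h1x : p.1 ≠ x := by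
    intro h
    rw [h, mv_dg_x hxv] at h1
    omega
  have h2x : p.2 ≠ x := by
    intro h
    rw [h, mv_dg_x hxv] at h2
    omega
  have e1 := mv_dg_le hxv hd h1x h1v
  have e2 := mv_dg_le hxv hd h2x h2v
  have e3 := hT p.1
  have e4 := hT p.2
  obtain ⟨h3, h4 | ⟨h4, h5⟩⟩ := (mv_adj_ne h1x h2x).1 h0
  · exact Or.inr (Or.inr (Or.inl ⟨h4, by omega, by omega⟩))
  · exact Or.inr (Or.inr (Or.inr ⟨h4.symm, h5.symm, h3⟩))

end Pool.Agent.EMT.SW
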