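import Pool.Agent.EMT.SW.Tree
import Pool.Agent.EMT.SW.Deg
import Pool.Agent.EMT.SW.Cnt0

set_option autoImplicit false

/-!
# Hanging a list of vertices on one vertex
-/

namespace Pool.Agent.EMT.SW

variable {V : Type} [Finite V]

/-- hang the vertices of the list on `v`, one after the other -/
def att (v : V) : List V → SimpleGraph V → SimpleGraph V
  | [], T => T
  | x :: l, T => att v l (mv T x v)

/-- the list can be hung on `v` -/
def Ok (v : V) (l : List V) (T : SimpleGraph V) : Prop :=
  Good T ∧ l.Nodup ∧ (∀ x ∈ l, x ≠ v ∧ dg T x ≤ 2 ∧ ¬ T.Adj v x) ∧ dg T v + l.length ≤ 12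

theorem one_le_dg {T : SimpleGraph V} (hT : T.IsTree) {x v : V} (h : x ≠ v) : 1 ≤ dg T x := by
  have hc : T.Reachable x v := hT.connected.preconnected x v
  obtain ⟨w⟩ := hc
  cases w with
  | nil => exact absurd rfl h
  | cons h1 _ =>
    rw [Nat.one_le_iff_ne_zero]
    unfold dg
    rw [Ne, Set.ncard_eq_zero (Set.toFinite _)]
    intro h2
    have : _ ∈ T.neighborSet x := h1
    rw [h2] at this
    exact this

theorem good_mv {T : SimpleGraph V} (hT : Good T) {x v : V} (hxv : x ≠ v) (hd : dg T x ≤ 2)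
    (hv : dg T v + 1 ≤ 12) : Good (mv T x v) := by
  refine ⟨mv_tree hT.1 hxv hd, fun a => ?_⟩
  by_cases hax : a = x
  · rw [hax, mv_dg_x hxv]; norm_num
  by_cases hav : a = v
  · rw [hav]
    exact le_trans (mv_dg_v hxv hd) hv
  · exact le_trans (mv_dg_le hxv hd hax hav) (hT.2 a)

theorem dg_mv_v {T : SimpleGraph V} {x v : V} (hxv : x ≠ v) (h : ¬ T.Adj v x) :
    dg (mv T x v) v = dg T v + 1 := by
  unfold dg
  rw [mv_nb_v hxv h, Set.ncard_insert_of_notMem (show x ∉ T.neighborSet v from h)
    (Set.toFinite _)]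

theorem Ok.tail {v x : V} {l : List V} {T : SimpleGraph V} (h : Ok v (x :: l) T) :
    Ok v l (mv T x v) := by
  obtain ⟨hT, hn, hl, hv⟩ := h
  rw [List.nodup_cons] at hn
  obtain ⟨hxv, hd, ha⟩ := hl x (List.mem_cons_self)
  rw [List.length_cons] at hv
  refine ⟨good_mv hT hxv hd (by omega), hn.2, fun y hy => ?_, ?_⟩
  · obtain ⟨h1, h2, h3⟩ := hl y (List.mem_cons_of_mem _ hy)
    have hyx : y ≠ x := fun h => hn.1 (h ▸ hy)
    refine ⟨h1, le_trans (mv_dg_le hxv hd hyx h1) h2, fun h4 => ?_⟩
    have h5 : y ∈ (mv T x v).neighborSet v := h4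
    rw [mv_nb_v hxv ha] at h5
    rcases h5 with h5 | h5
    · exact hyx h5
    · exact h3 h5
  · rw [dg_mv_v hxv ha]; omega

/-- off diagonal pairs of neighbours of a vertex of degree at most two -/
theorem off_ncard {T : SimpleGraph V} {x : V} (hd : dg T x ≤ 2) :
    {p : V × V | p.1 ∈ T.neighborSet x ∧ p.2 ∈ T.neighborSet x ∧ p.1 ≠ p.2}.ncard ≤ 2 := by
  classical
  have := Fintype.ofFinite V
  have h1 : {p : V × V | p.1 ∈ T.neighborSet x ∧ p.2 ∈ T.neighborSet x ∧ p.1 ≠ p.2}.ncard =
      ((T.neighborSet x).toFinset.offDiag).card := by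
    rw [Set.ncard_eq_toFinset_card']
    congr 1
    ext p
    simp
  rw [h1, Finset.offDiag_card]
  have h2 : (T.neighborSet x).toFinset.card ≤ 2 := by
    rw [← Set.ncard_eq_toFinset_card']
    exact hd
  generalize (T.neighborSet x).toFinset.card = c at h2
  interval_cases c <;> norm_num

theorem att_spec (v : V) (l : List V) : ∀ T : SimpleGraph V, Ok v l T →
    Good (att v l T) ∧
    (att v l T).neighborSet v = T.neighborSet v ∪ {x | x ∈ l} ∧
    (∀ x ∈ l, (att v l T).neighborSet x = {v}) ∧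
    (∀ a, a ≠ v → dg (att v l T) a ≤ dg T a) ∧
    (∀ a, a ≠ v → a ∉ l → (∀ x ∈ l, ¬ T.Adj a x) → (att v l T).neighborSet a = T.neighborSet a) ∧
    ∃ E : Set (V × V), E.ncard ≤ 2 * l.length ∧
      ∀ p ∈ dp (att v l T), p.1 = v ∨ p.2 = v ∨ p ∈ dp T ∨ p ∈ E := by
  induction l with
  | nil =>
    intro T h
    refine ⟨h.1, by simp [att], by simp, fun a _ => le_refl _, fun a _ _ _ => rfl, ∅, by simp,
      fun p hp => Or.inr (Or.inr (Or.inl hp))⟩
  | cons x l ih =>
    intro T h
    obtain ⟨g1, g2, g3, g4, g5, E, g6, g7⟩ := ih (mv T x v) h.tail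
    obtain ⟨hT, hn, hl, hv⟩ := h
    rw [List.nodup_cons] at hn
    obtain ⟨hxv, hd, ha⟩ := hl x (List.mem_cons_self)
    refine ⟨g1, ?_, ?_, ?_, ?_, ?_⟩
    · change (att v l (mv T x v)).neighborSet v = _
      rw [g2, mv_nb_v hxv ha]
      ext b
      simp only [Set.mem_union, Set.mem_insert_iff, Set.mem_setOf_eq, List.mem_cons]
      tauto
    · intro y hy
      change (att v l (mv T x v)).neighborSet y = _
      rw [List.mem_cons] at hy
      rcases hy with hy | hy
      · rw [hy, g5 x hxv hn.1 (fun z hz hadj => ?_), mv_nb_x hxv]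
        have hz1 : z ∈ (mv T x v).neighborSet x := hadj
        rw [mv_nb_x hxv] at hz1
        exact (hl z (List.mem_cons_of_mem _ hz)).1 hz1
      · exact g3 y hy
    · intro a hav
      change dg (att v l (mv T x v)) a ≤ _
      refine le_trans (g4 a hav) ?_
      by_cases hax : a = x
      · rw [hax, mv_dg_x hxv]
        exact one_le_dg hT.1 hxv
      · exact mv_dg_le hxv hd hax hav
    · intro a hav hal hadj
      change (att v l (mv T x v)).neighborSet a = _
      have hax : a ≠ x := fun h => hal (h ▸ List.mem_cons_self)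
      have h1 : (mv T x v).neighborSet a = T.neighborSet a :=
        mv_nb_far hax hav (hadj x List.mem_cons_self)
      rw [g5 a hav (fun h => hal (List.mem_cons_of_mem _ h)) (fun y hy hadj' => ?_), h1]
      have h2 : y ∈ (mv T x v).neighborSet a := hadj'
      rw [h1] at h2
      exact hadj y (List.mem_cons_of_mem _ hy) h2
    · refine ⟨E ∪ {p : V × V | p.1 ∈ T.neighborSet x ∧ p.2 ∈ T.neighborSet x ∧ p.1 ≠ p.2}, ?_,
        fun p hp => ?_⟩
      · refine le_trans (Set.ncard_union_le _ _) ?_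
        have := off_ncard hd
        rw [List.length_cons]
        omega
      · rcases g7 p hp with h1 | h1 | h1 | h1
        · exact Or.inl h1
        · exact Or.inr (Or.inl h1)
        · rcases mv_dp hT.2 hxv hd h1 with h2 | h2 | h2 | h2
          · exact Or.inl h2
          · exact Or.inr (Or.inl h2)
          · exact Or.inr (Or.inr (Or.inl h2))
          · exact Or.inr (Or.inr (Or.inr (Or.inr h2)))
        · exact Or.inr (Or.inr (Or.inr (Or.inl h1)))

theorem att_fib (v : V) (l : List V) : ∀ H : SimpleGraph V,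
    {T : SimpleGraph V | Ok v l T ∧ att v l T = H}.ncard ≤ (2 * Nat.card V) ^ l.length := by
  induction l with
  | nil =>
    intro H
    simp only [List.length_nil, pow_zero]
    refine le_trans (Set.ncard_le_ncard (t := {H}) ?_ (Set.toFinite _)) (by simp)
    rintro T ⟨-, hT⟩
    exact hT
  | cons x l ih =>
    intro H
    by_cases hxv : x = v
    · have : {T : SimpleGraph V | Ok v (x :: l) T ∧ att v (x :: l) T = H} = ∅ := by
        ext T
        simp only [Set.mem_setOf_eq, Set.mem_empty_iff_false, iff_false]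
        rintro ⟨h, -⟩
        exact (h.2.2.1 x List.mem_cons_self).1 hxv
      rw [this]; simp
    · refine le_trans (ncard_fib (fun T => mv T x v) _
        {G : SimpleGraph V | Ok v l G ∧ att v l G = H} (2 * Nat.card V) ?_ ?_) ?_
      · rintro T ⟨h1, h2⟩
        exact ⟨h1.tail, h2⟩
      · rintro G ⟨h1, -⟩
        refine le_trans (Set.ncard_le_ncard ?_ (Set.toFinite _)) (mv_fib G h1.1.1 hxv)
        rintro T ⟨⟨h3, -⟩, h4⟩
        exact ⟨h3.1.1, (h3.2.2.1 x List.mem_cons_self).2.1, h4⟩
      · rw [List.length_cons, pow_succ, mul_comm]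
        exact Nat.mul_le_mul_right _ (ih H)

end Pool.Agent.EMT.SW
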