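import Mathlib

set_option autoImplicit false
set_option linter.all false

/-!
# Counting functions
-/

namespace Pool.Agent.EMT.SW

theorem ncard_pi {V : Type} [Finite V] (A : Set V) :
    {y : Fin 24 → V | ∀ i, y i ∈ A}.ncard = A.ncard ^ 24 := by
  classical
  haveI : Fintype V := Fintype.ofFinite V
  let e : {y : Fin 24 → V // ∀ i, y i ∈ A} ≃ (Fin 24 → A) :=
    { toFun := fun y i => ⟨y.1 i, y.2 i⟩
      invFun := fun y => ⟨fun i => (y i).1, fun i => (y i).2⟩
      left_inv := fun _ => rfl
      right_inv := fun _ => rfl }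
  have h1 : {y : Fin 24 → V | ∀ i, y i ∈ A}.ncard = Nat.card {y : Fin 24 → V // ∀ i, y i ∈ A} := rfl
  rw [h1, Nat.card_congr e, Nat.card_fun, Nat.card_eq_fintype_card (α := Fin 24), Fintype.card_fin]
  rfl

theorem ncard_inj {V : Type} [Finite V] (Y : Set V) :
    {y : Fin 24 → V | Function.Injective y ∧ ∀ i, y i ∈ Y}.ncard = Y.ncard.descFactorial 24 := by
  classical
  haveI : Fintype V := Fintype.ofFinite V
  let e : {y : Fin 24 → V // Function.Injective y ∧ ∀ i, y i ∈ Y} ≃ (Fin 24 ↪ Y) :=
    { toFun := fun y => ⟨fun i => ⟨y.1 i, y.2.2 i⟩, fun i j h => y.2.1 (congrArg Subtype.val h)⟩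
      invFun := fun y => ⟨fun i => (y i).1, fun i j h => y.injective (Subtype.ext h),
        fun i => (y i).2⟩
      left_inv := fun _ => rfl
      right_inv := fun _ => rfl }
  have h1 : {y : Fin 24 → V | Function.Injective y ∧ ∀ i, y i ∈ Y}.ncard =
      Nat.card {y : Fin 24 → V // Function.Injective y ∧ ∀ i, y i ∈ Y} := rfl
  rw [h1, Nat.card_congr e, Nat.card_eq_fintype_card, Fintype.card_embedding_eq, Fintype.card_fin,
    ← Nat.card_eq_fintype_card]
  rfl

theorem ncard_fib_ge {α β : Type} [Finite α] [Finite β] (Q : Set α) (S : Set (α × β)) (M : ℕ)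
    (hm : ∀ a ∈ Q, M ≤ {b | (a, b) ∈ S}.ncard) : Q.ncard * M ≤ S.ncard := by
  classical
  haveI : Fintype α := Fintype.ofFinite α
  haveI : Fintype β := Fintype.ofFinite β
  have h1 : Q.ncard = Q.toFinset.card := Set.ncard_eq_toFinset_card' Q
  have h2 : S.ncard = S.toFinset.card := Set.ncard_eq_toFinset_card' S
  rw [h1, h2]
  have h3 : Q.toFinset.card * M ≤ ∑ a ∈ Q.toFinset, (S.toFinset.filter fun p => p.1 = a).card := by
    rw [← smul_eq_mul]
    apply Finset.card_nsmul_le_sum
    intro a ha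
    rw [Set.mem_toFinset] at ha
    refine (hm a ha).trans ?_
    have h4 : {b | (a, b) ∈ S}.ncard = {b | (a, b) ∈ S}.toFinset.card :=
      Set.ncard_eq_toFinset_card' _
    rw [h4]
    apply Finset.card_le_card_of_injOn (fun b => (a, b))
    · intro b hb
      simpa using hb
    · intro b _ b' _ h
      exact (Prod.mk.inj h).2
  refine h3.trans ?_
  rw [← Finset.card_biUnion]
  · apply Finset.card_le_card
    intro p hp
    rw [Finset.mem_biUnion] at hp
    obtain ⟨a, _, hp⟩ := hp
    exact (Finset.mem_filter.mp hp).1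
  · intro a _ b _ hab
    rw [Function.onFun, Finset.disjoint_left]
    intro p hp hp'
    exact hab ((Finset.mem_filter.mp hp).2.symm.trans (Finset.mem_filter.mp hp').2)

end Pool.Agent.EMT.SW
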