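import Mathlib

set_option autoImplicit false

/-!
# Moving vertices of degree at most two in a tree: definitions
-/

namespace Pool.Agent.EMT.SW

variable {V : Type}

/-- degree -/
noncomputable def dg (T : SimpleGraph V) (x : V) : ℕ := (T.neighborSet x).ncard

/-- bypass the vertex `x` (its neighbours become adjacent) and hang it as a leaf on `v` -/
def mv (T : SimpleGraph V) (x v : V) : SimpleGraph V where
  Adj a b := a ≠ b ∧ ((a = x ∧ b = v) ∨ (a = v ∧ b = x) ∨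
    (a ≠ x ∧ b ≠ x ∧ (T.Adj a b ∨ (T.Adj a x ∧ T.Adj b x))))
  symm := ⟨fun a b h => by
    obtain ⟨h0, h⟩ := h
    refine ⟨h0.symm, ?_⟩
    rcases h with ⟨h1, h2⟩ | ⟨h1, h2⟩ | ⟨h1, h2, h3⟩
    · exact Or.inr (Or.inl ⟨h2, h1⟩)
    · exact Or.inl ⟨h2, h1⟩
    · refine Or.inr (Or.inr ⟨h2, h1, ?_⟩)
      rcases h3 with h3 | ⟨h3, h4⟩
      · exact Or.inl h3.symm
      · exact Or.inr ⟨h4, h3⟩⟩
  loopless := ⟨fun a h => h.1 rfl⟩

/-- trees of maximum degree at most twelve -/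
def Good (T : SimpleGraph V) : Prop := T.IsTree ∧ ∀ a, dg T a ≤ 12

/-- ordered pairs of adjacent vertices of degree twelve -/
def dp (T : SimpleGraph V) : Set (V × V) := {p | T.Adj p.1 p.2 ∧ dg T p.1 = 12 ∧ dg T p.2 = 12}

theorem mv_adj_x {T : SimpleGraph V} {x v b : V} (h : x ≠ v) : (mv T x v).Adj x b ↔ b = v := by
  constructor
  · rintro ⟨h0, ⟨-, h1⟩ | ⟨h1, -⟩ | ⟨h1, -, -⟩⟩
    · exact h1
    · exact absurd h1 h
    · exact absurd rfl h1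
  · rintro rfl
    exact ⟨h, Or.inl ⟨rfl, rfl⟩⟩

theorem mv_adj_ne {T : SimpleGraph V} {x v a b : V} (ha : a ≠ x) (hb : b ≠ x) :
    (mv T x v).Adj a b ↔ a ≠ b ∧ (T.Adj a b ∨ (T.Adj a x ∧ T.Adj b x)) := by
  constructor
  · rintro ⟨h0, ⟨h1, -⟩ | ⟨-, h1⟩ | ⟨-, -, h3⟩⟩
    · exact absurd h1 ha
    · exact absurd h1 hb
    · exact ⟨h0, h3⟩
  · rintro ⟨h0, h3⟩
    exact ⟨h0, Or.inr (Or.inr ⟨ha, hb, h3⟩)⟩

end Pool.Agent.EMT.SW
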