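import Pool.Agent.EMT.SW.Defs

set_option autoImplicit false

namespace Pool.Agent.EMT.SW

variable {V : Type} [Finite V]

omit [Finite V] in
private lemma no_tri {T : SimpleGraph V} (hT : T.IsTree) {a b x : V} (h1 : T.Adj a b)
    (h2 : T.Adj a x) (h3 : T.Adj b x) : False := by
  have hb := SimpleGraph.isAcyclic_iff_forall_adj_isBridge.1 hT.2 h1
  rw [SimpleGraph.isBridge_iff] at hb
  apply hb
  have e1 : (T \ SimpleGraph.fromEdgeSet {s(a, b)}).Adj a x := by
    rw [SimpleGraph.sdiff_adj]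
    refine ⟨h2, ?_⟩
    rw [SimpleGraph.fromEdgeSet_adj, Set.mem_singleton_iff, Sym2.eq_iff]
    rintro ⟨⟨-, h⟩ | ⟨h, -⟩, -⟩
    · exact h3.ne h.symm
    · exact h1.ne h
  have e2 : (T \ SimpleGraph.fromEdgeSet {s(a, b)}).Adj x b := by
    rw [SimpleGraph.sdiff_adj]
    refine ⟨h3.symm, ?_⟩
    rw [SimpleGraph.fromEdgeSet_adj, Set.mem_singleton_iff, Sym2.eq_iff]
    rintro ⟨⟨h, -⟩ | ⟨h, -⟩, -⟩
    · exact h2.ne h.symm
    · exact h3.ne h.symm
  exact e1.reachable.trans e2.reachable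

omit [Finite V] in
private lemma adj_iff {T H : SimpleGraph V} (hT : T.IsTree) {x v a b : V} (hH : mv T x v = H)
    (ha : a ≠ x) (hb : b ≠ x) :
    T.Adj a b ↔ H.Adj a b ∧ ¬ (a ∈ T.neighborSet x ∧ b ∈ T.neighborSet x) := by
  rw [← hH, mv_adj_ne ha hb]
  constructor
  · intro h
    exact ⟨⟨h.ne, Or.inl h⟩, fun h2 => no_tri hT h h2.1.symm h2.2.symm⟩
  · rintro ⟨⟨-, h | ⟨h1, h2⟩⟩, h3⟩
    · exact h
    · exact absurd ⟨h1.symm, h2.symm⟩ h3

/-- At most `2 |V|` trees `T` with `deg x ≤ 2` give the same graph after the move of `x` to `v`. -/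
theorem mv_fib (H : SimpleGraph V) (hH : H.IsTree) {x v : V} (hxv : x ≠ v) :
    {T : SimpleGraph V | T.IsTree ∧ dg T x ≤ 2 ∧ mv T x v = H}.ncard ≤ 2 * Nat.card V := by
  classical
  have hc := (SimpleGraph.isTree_iff_connected_and_card.1 hH).2
  have hc' : H.edgeSet.ncard + 1 = Nat.card V := hc
  obtain ⟨t, ht⟩ : ∃ t : Set (Set V), t = ((fun y : V => ({y} : Set V)) '' Set.univ) ∪
      ((fun e : Sym2 V => {a : V | a ∈ e}) '' H.edgeSet) := ⟨_, rfl⟩
  have h1 : t.ncard ≤ Nat.card V + H.edgeSet.ncard := by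
    rw [ht]
    refine (Set.ncard_union_le _ _).trans (Nat.add_le_add ?_ ?_)
    · refine (Set.ncard_image_le (Set.toFinite _)).trans ?_
      rw [Set.ncard_univ]
    · exact Set.ncard_image_le (Set.toFinite _)
  refine le_trans (Set.ncard_le_ncard_of_injOn (t := t) (fun T : SimpleGraph V => T.neighborSet x)
    ?_ ?_ (Set.toFinite _)) (h1.trans (by omega))
  · rintro T ⟨hT, hd, hm⟩
    rw [ht]
    obtain ⟨y, hy⟩ : ∃ y, T.Adj x y := by
      obtain ⟨w⟩ := hT.1.preconnected x v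
      cases w with
      | nil => exact absurd rfl hxv
      | cons h _ => exact ⟨_, h⟩
    have hpos : 0 < (T.neighborSet x).ncard := (Set.ncard_pos (Set.toFinite _)).2 ⟨y, hy⟩
    have hle : (T.neighborSet x).ncard ≤ 2 := hd
    have hcase : (T.neighborSet x).ncard = 1 ∨ (T.neighborSet x).ncard = 2 := by omega
    rcases hcase with hk | hk
    · obtain ⟨y', hy'⟩ := Set.ncard_eq_one.1 hk
      exact Or.inl ⟨y', Set.mem_univ _, hy'.symm⟩
    · obtain ⟨y', z', hyz, hnn⟩ := Set.ncard_eq_two.1 hk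
      have hy1 : T.Adj x y' := by
        have : y' ∈ T.neighborSet x := by rw [hnn]; exact Set.mem_insert _ _
        exact this
      have hz1 : T.Adj x z' := by
        have : z' ∈ T.neighborSet x := by rw [hnn]; exact Set.mem_insert_of_mem _ rfl
        exact this
      refine Or.inr ⟨s(y', z'), ?_, ?_⟩
      · rw [SimpleGraph.mem_edgeSet, ← hm, mv_adj_ne hy1.ne' hz1.ne']
        exact ⟨hyz, Or.inr ⟨hy1.symm, hz1.symm⟩⟩
      · show {a : V | a ∈ s(y', z')} = T.neighborSet x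
        rw [hnn]
        ext a
        simp [Sym2.mem_iff]
  · rintro T1 ⟨hT1, -, hm1⟩ T2 ⟨hT2, -, hm2⟩ h
    have h : T1.neighborSet x = T2.neighborSet x := h
    have hx : ∀ b, T1.Adj x b ↔ T2.Adj x b := by
      intro b
      have := Set.ext_iff.1 h b
      simpa [SimpleGraph.mem_neighborSet] using this
    ext a b
    by_cases ha : a = x
    · rw [ha]; exact hx b
    · by_cases hb : b = x
      · rw [hb, T1.adj_comm, T2.adj_comm]; exact hx a
      · rw [adj_iff hT1 hm1 ha hb, adj_iff hT2 hm2 ha hb, h]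

end Pool.Agent.EMT.SW
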