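import Pool.Agent.EMT.SW.Step

set_option autoImplicit false
set_option linter.deprecated false

namespace Pool.Agent.EMT.SW

private theorem ncard_fib_le {α β : Type} [Finite α] [Finite β] (Q : Set α) (S : Set (α × β))
    (M : ℕ) (hQ : ∀ q ∈ S, q.1 ∈ Q) (hm : ∀ a ∈ Q, {b | (a, b) ∈ S}.ncard ≤ M) :
    S.ncard ≤ Q.ncard * M := by
  classical
  rw [Set.ncard_eq_toFinset_card S (Set.toFinite S), Set.ncard_eq_toFinset_card Q (Set.toFinite Q),
    mul_comm]
  refine Finset.card_le_mul_card_image_of_maps_to (f := Prod.fst) ?_ M ?_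
  · intro q hq
    rw [Set.Finite.mem_toFinset] at hq ⊢
    exact hQ q hq
  · intro a ha
    rw [Set.Finite.mem_toFinset] at ha
    refine le_trans ?_ (hm a ha)
    rw [Set.ncard_eq_toFinset_card _ (Set.toFinite _)]
    refine Finset.card_le_card_of_injOn Prod.snd ?_ ?_
    · rintro ⟨a', b⟩ hq
      simp only [Finset.coe_filter, Set.Finite.mem_toFinset, Set.mem_setOf_eq] at hq
      simp only [Set.Finite.coe_toFinset, Set.mem_setOf_eq]
      rw [← hq.2]
      exact hq.1
    · rintro ⟨a1, b1⟩ h1 ⟨a2, b2⟩ h2 h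
      simp only [Finset.coe_filter, Set.mem_setOf_eq] at h1 h2
      exact Prod.ext (h1.2.trans h2.2.symm) h

private theorem ncard_pi' {W : Type} [Finite W] (k : ℕ) (A : Set W) :
    {f : Fin k → W | ∀ i, f i ∈ A}.ncard = A.ncard ^ k := by
  classical
  have e : {f : Fin k → W // ∀ i, f i ∈ A} ≃ (Fin k → {b : W // b ∈ A}) :=
    Equiv.subtypePiEquivPi
  have h1 : {f : Fin k → W | ∀ i, f i ∈ A}.ncard = Nat.card {f : Fin k → W // ∀ i, f i ∈ A} := rfl
  have h2 : A.ncard = Nat.card {b : W // b ∈ A} := rfl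
  rw [h1, h2, Nat.card_congr e, Nat.card_fun, Nat.card_fin]

private theorem iter {V : Type} [Finite V] (C1 : ℕ) (hC : C1 = 4 ^ 24 * 24 ^ 24 * 2 ^ 23) (k : ℕ)
    (hk : 104 * k ≤ Nat.card V) :
    ∀ j ≤ k, (DD V 0).ncard * Nat.card V ^ j ≤ C1 ^ j * (DD V j).ncard := by
  intro j
  induction j with
  | zero => intro _; simp
  | succ j ih =>
    intro hj
    have h1 := ih (by omega)
    have h2 := step (V := V) j (by omega)
    rw [← hC] at h2
    calc (DD V 0).ncard * Nat.card V ^ (j + 1)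
        = ((DD V 0).ncard * Nat.card V ^ j) * Nat.card V := by ring
      _ ≤ (C1 ^ j * (DD V j).ncard) * Nat.card V := Nat.mul_le_mul_right _ h1
      _ = C1 ^ j * ((DD V j).ncard * Nat.card V) := by ring
      _ ≤ C1 ^ j * (C1 * (DD V (j + 1)).ncard) := Nat.mul_le_mul_left _ h2
      _ = C1 ^ (j + 1) * (DD V (j + 1)).ncard := by ring

private theorem few' {V : Type} [Finite V] (C1 : ℕ) (hC : C1 = 4 ^ 24 * 24 ^ 24 * 2 ^ 23)
    (hpos : 0 < C1) :
    {T : SimpleGraph V | Good T ∧ dp T = ∅}.ncard * 2 ^ (Nat.card V / (236 * C1)) ≤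
    {T : SimpleGraph V | Good T}.ncard := by
  classical
  obtain ⟨n, hn⟩ : ∃ n, n = Nat.card V := ⟨_, rfl⟩
  obtain ⟨k, hk⟩ : ∃ k, k = Nat.card V / (236 * C1) := ⟨_, rfl⟩
  rw [← hk]
  rcases Nat.eq_zero_or_pos k with h0 | hkpos
  · rw [h0, pow_zero, mul_one]
    exact Set.ncard_le_ncard (fun T hT => hT.1) (Set.toFinite _)
  have hkn : 236 * C1 * k ≤ n := by
    rw [hk, ← hn]
    exact Nat.mul_div_le n (236 * C1)
  have h104 : 104 * k ≤ Nat.card V := by
    rw [← hn]
    refine le_trans ?_ hkn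
    refine Nat.mul_le_mul_right k ?_
    omega
  have h1 := iter C1 hC k h104 k le_rfl
  rw [← hn] at h1
  -- the start
  have h2 : {T : SimpleGraph V | Good T ∧ dp T = ∅}.ncard ≤ (DD V 0).ncard := by
    refine Set.ncard_le_ncard_of_injOn (fun T => (T, fun i : Fin 0 => i.elim0)) ?_ ?_
      (Set.toFinite _)
    · rintro T ⟨hT, hd⟩
      refine ⟨hT, ?_, fun i => i.elim0⟩
      show (dp T).ncard ≤ _
      rw [hd, Set.ncard_empty]
    · intro T1 _ T2 _ h
      exact (Prod.mk.inj h).1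
  -- the end
  have h3 : (DD V k).ncard ≤ {T : SimpleGraph V | Good T}.ncard * (118 * k) ^ k := by
    refine ncard_fib_le _ _ _ (fun q hq => hq.1) ?_
    intro T _
    by_cases hd : (dp T).ncard ≤ 118 * k
    · refine le_trans ?_ (Nat.pow_le_pow_left hd k)
      rw [← ncard_pi' k (dp T)]
      exact Set.ncard_le_ncard (fun f hf => hf.2.2) (Set.toFinite _)
    · have : {b | (T, b) ∈ DD V k} = ∅ := by
        ext b
        simp only [Set.mem_setOf_eq, Set.mem_empty_iff_false, iff_false]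
        exact fun h => hd h.2.1
      rw [this, Set.ncard_empty]
      exact Nat.zero_le _
  have hpk : 0 < (118 * C1 * k) ^ k := by positivity
  refine Nat.le_of_mul_le_mul_right ?_ hpk
  calc {T : SimpleGraph V | Good T ∧ dp T = ∅}.ncard * 2 ^ k * (118 * C1 * k) ^ k
      = {T : SimpleGraph V | Good T ∧ dp T = ∅}.ncard * (236 * C1 * k) ^ k := by
        rw [mul_assoc, ← mul_pow]; congr 2; ring
    _ ≤ (DD V 0).ncard * n ^ k := Nat.mul_le_mul h2 (Nat.pow_le_pow_left hkn k)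
    _ ≤ C1 ^ k * (DD V k).ncard := h1
    _ ≤ C1 ^ k * ({T : SimpleGraph V | Good T}.ncard * (118 * k) ^ k) :=
        Nat.mul_le_mul_left _ h3
    _ = {T : SimpleGraph V | Good T}.ncard * (118 * C1 * k) ^ k := by
        have : 118 * C1 * k = C1 * (118 * k) := by ring
        rw [this, mul_pow C1]; ring

/-- `C = 236 * (4 ^ 24 * 24 ^ 24 * 2 ^ 23)`; `k = n / C` steps: `|DD 0| n ^ k ≤ C1 ^ k |DD k|` and
`|DD k| ≤ |Good| (118 k) ^ k`, `236 C1 k ≤ n` -/
theorem few {V : Type} [Finite V] :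
    {T : SimpleGraph V | Good T ∧ dp T = ∅}.ncard *
      2 ^ (Nat.card V / (236 * (4 ^ 24 * 24 ^ 24 * 2 ^ 23))) ≤
    {T : SimpleGraph V | Good T}.ncard :=
  few' _ rfl (by positivity)

end Pool.Agent.EMT.SW
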