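import Pool.Agent.EMT.SW.Defs

set_option autoImplicit false
set_option linter.all false

namespace Pool.Agent.EMT.SW

variable {V : Type} [Finite V]

/-- at least half of the vertices of a tree have degree at most two (sum of the degrees
`2 |V| - 2`, every degree at least one if `|V| ≥ 2`) -/
theorem low {T : SimpleGraph V} (hT : T.IsTree) : Nat.card V ≤ 2 * {x | dg T x ≤ 2}.ncard := by
  classical
  haveI : Fintype V := Fintype.ofFinite V
  have hdg : ∀ x, dg T x = T.degree x := by
    intro x
    rw [dg, Set.ncard_eq_toFinset_card', ← SimpleGraph.card_neighborFinset_eq_degree]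
    rfl
  have hL : {x | dg T x ≤ 2}.ncard = (Finset.univ.filter fun x => T.degree x ≤ 2).card := by
    rw [← Set.ncard_coe_finset]
    congr 1
    ext x
    simp [hdg]
  rw [hL, Nat.card_eq_fintype_card]
  have hsum := T.sum_degrees_eq_twice_card_edges
  have hE := hT.card_edgeFinset
  rcases Nat.lt_or_ge 1 (Fintype.card V) with h1 | h1
  · have hnt : Nontrivial V := Fintype.one_lt_card_iff_nontrivial.mp h1
    have hpos : ∀ x, 1 ≤ T.degree x := by
      intro x
      obtain ⟨y, hy⟩ := exists_ne x
      obtain ⟨w⟩ := hT.connected.preconnected x y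
      cases w with
      | nil => exact absurd rfl hy
      | cons h _ => exact h.degree_pos_left
    have hlow : ∑ x : V, 3 ≤ ∑ x, (T.degree x + 2 * (if T.degree x ≤ 2 then 1 else 0)) := by
      apply Finset.sum_le_sum
      intro x _
      have := hpos x
      split_ifs <;> omega
    rw [Finset.sum_add_distrib, ← Finset.mul_sum, Finset.sum_boole, hsum] at hlow
    simp only [Finset.sum_const, Finset.card_univ, smul_eq_mul, Nat.cast_id] at hlow
    omega
  · have h0 : 0 < Fintype.card V := by omega
    have h1' : Fintype.card V = 1 := by omega
    have hE0 : T.edgeFinset.card = 0 := by omega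
    rw [hE0] at hsum
    have hz : ∀ x, T.degree x = 0 := by
      intro x
      have := (Finset.sum_eq_zero_iff.mp (hsum.trans (mul_zero 2))) x (Finset.mem_univ x)
      exact this
    have : (Finset.univ.filter fun x => T.degree x ≤ 2) = Finset.univ := by
      ext x
      simp [hz]
    rw [this, Finset.card_univ]
    omega

end Pool.Agent.EMT.SW
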