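import Pool.Agent.EMT.SW.Att

set_option autoImplicit false

/-!
# The pattern: two adjacent vertices of degree twelve
-/

namespace Pool.Agent.EMT.SW

variable {V : Type} [Finite V]

/-- `y 2, ..., y 12` -/
def l1 (y : ℕ → V) : List V := (List.range 11).map (fun i => y (i + 2))

/-- `y 13, ..., y 23` -/
def l2 (y : ℕ → V) : List V := (List.range 11).map (fun i => y (i + 13))

/-- the pattern: hang `y 1` on `y 0`, then `y 2, ..., y 12` on `y 1`, then `y 13, ..., y 23` on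
`y 2` -/
def pat (y : ℕ → V) (T : SimpleGraph V) : SimpleGraph V :=
  att (y 2) (l2 y) (att (y 1) (l1 y) (mv T (y 1) (y 0)))

/-- the pattern can be applied -/
def POk (y : ℕ → V) (T : SimpleGraph V) : Prop :=
  Good T ∧ (∀ i < 24, ∀ j < 24, y i = y j → i = j) ∧ ∀ i < 24, dg T (y i) ≤ 2

theorem mem_l1 {y : ℕ → V} {x : V} (h : x ∈ l1 y) : ∃ i, 2 ≤ i ∧ i < 13 ∧ x = y i := by
  unfold l1 at h
  rw [List.mem_map] at h
  obtain ⟨i, hi, rfl⟩ := h
  rw [List.mem_range] at hi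
  exact ⟨i + 2, by omega, by omega, rfl⟩

theorem mem_l2 {y : ℕ → V} {x : V} (h : x ∈ l2 y) : ∃ i, 13 ≤ i ∧ i < 24 ∧ x = y i := by
  unfold l2 at h
  rw [List.mem_map] at h
  obtain ⟨i, hi, rfl⟩ := h
  rw [List.mem_range] at hi
  exact ⟨i + 13, by omega, by omega, rfl⟩

theorem y_mem_l1 (y : ℕ → V) {i : ℕ} (h2 : 2 ≤ i) (h : i < 13) : y i ∈ l1 y := by
  unfold l1
  rw [List.mem_map]
  exact ⟨i - 2, List.mem_range.2 (by omega), by congr 1; omega⟩

theorem y_mem_l2 (y : ℕ → V) {i : ℕ} (h2 : 13 ≤ i) (h : i < 24) : y i ∈ l2 y := by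
  unfold l2
  rw [List.mem_map]
  exact ⟨i - 13, List.mem_range.2 (by omega), by congr 1; omega⟩

theorem len_l1 (y : ℕ → V) : (l1 y).length = 11 := by simp [l1]

theorem len_l2 (y : ℕ → V) : (l2 y).length = 11 := by simp [l2]

theorem nodup_l1 {y : ℕ → V} (h : ∀ i < 24, ∀ j < 24, y i = y j → i = j) : (l1 y).Nodup := by
  unfold l1
  refine (List.nodup_map_iff_inj_on List.nodup_range).2 (fun i hi j hj e => ?_)
  rw [List.mem_range] at hi hj
  have := h _ (by omega) _ (by omega) e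
  omega

theorem nodup_l2 {y : ℕ → V} (h : ∀ i < 24, ∀ j < 24, y i = y j → i = j) : (l2 y).Nodup := by
  unfold l2
  refine (List.nodup_map_iff_inj_on List.nodup_range).2 (fun i hi j hj e => ?_)
  rw [List.mem_range] at hi hj
  have := h _ (by omega) _ (by omega) e
  omega

/-- phase 1 -/
theorem pok_one {y : ℕ → V} {T : SimpleGraph V} (h : POk y T) :
    Ok (y 1) (l1 y) (mv T (y 1) (y 0)) := by
  obtain ⟨hT, hy, hd⟩ := h
  have h10 : y 1 ≠ y 0 := fun e => by have := hy 1 (by norm_num) 0 (by norm_num) e; omega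
  refine ⟨good_mv hT h10 (hd 1 (by norm_num)) (by have := hd 0 (by norm_num); omega),
    nodup_l1 hy, fun x hx => ?_, ?_⟩
  · obtain ⟨i, hi, hi', rfl⟩ := mem_l1 hx
    have hi1 : y i ≠ y 1 := fun e => by have := hy i (by omega) 1 (by norm_num) e; omega
    have hi0 : y i ≠ y 0 := fun e => by have := hy i (by omega) 0 (by norm_num) e; omega
    refine ⟨hi1, le_trans (mv_dg_le h10 (hd 1 (by norm_num)) hi1 hi0) (hd i (by omega)),
      fun hadj => ?_⟩
    have h1 : y i ∈ (mv T (y 1) (y 0)).neighborSet (y 1) := hadj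
    rw [mv_nb_x h10] at h1
    exact hi0 h1
  · rw [mv_dg_x h10, len_l1]

/-- phase 2 -/
theorem pok_two {y : ℕ → V} {T : SimpleGraph V} (h : POk y T) :
    Ok (y 2) (l2 y) (att (y 1) (l1 y) (mv T (y 1) (y 0))) := by
  have h1 := pok_one h
  obtain ⟨hT, hy, hd⟩ := h
  have h10 : y 1 ≠ y 0 := fun e => by have := hy 1 (by norm_num) 0 (by norm_num) e; omega
  obtain ⟨g1, g2, g3, g4, g5, -⟩ := att_spec _ _ _ h1
  have h2 := g3 (y 2) (y_mem_l1 y (by norm_num) (by norm_num))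
  refine ⟨g1, nodup_l2 hy, fun x hx => ?_, ?_⟩
  · obtain ⟨i, hi, hi', rfl⟩ := mem_l2 hx
    have hi1 : y i ≠ y 1 := fun e => by have := hy i (by omega) 1 (by norm_num) e; omega
    have hi0 : y i ≠ y 0 := fun e => by have := hy i (by omega) 0 (by norm_num) e; omega
    have hi2 : y i ≠ y 2 := fun e => by have := hy i (by omega) 2 (by norm_num) e; omega
    refine ⟨hi2, le_trans (g4 _ hi1) (le_trans (mv_dg_le h10 (hd 1 (by norm_num)) hi1 hi0)
      (hd i (by omega))), fun hadj => ?_⟩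
    have h3 : y i ∈ (att (y 1) (l1 y) (mv T (y 1) (y 0))).neighborSet (y 2) := hadj
    rw [h2] at h3
    exact hi1 h3
  · have : dg (att (y 1) (l1 y) (mv T (y 1) (y 0))) (y 2) = 1 := by
      unfold dg
      rw [h2, Set.ncard_singleton]
    rw [this, len_l2]

theorem cross_ncard {T : SimpleGraph V} (hT : ∀ a, dg T a ≤ 12) (c : V) :
    {p : V × V | p.1 = c ∧ T.Adj p.1 p.2}.ncard ≤ 12 ∧
    {p : V × V | p.2 = c ∧ T.Adj p.1 p.2}.ncard ≤ 12 := by
  constructor
  · refine le_trans (Set.ncard_le_ncard_of_injOn (t := T.neighborSet c) (fun p => p.2) ?_ ?_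
      (Set.toFinite _)) (hT c)
    · rintro ⟨a, b⟩ ⟨h1, h2⟩
      simp only at h1 h2
      subst h1
      exact h2
    · rintro ⟨a, b⟩ ⟨h1, -⟩ ⟨a', b'⟩ ⟨h1', -⟩ e
      simp only at h1 h1' e
      rw [h1, h1', e]
  · refine le_trans (Set.ncard_le_ncard_of_injOn (t := T.neighborSet c) (fun p => p.1) ?_ ?_
      (Set.toFinite _)) (hT c)
    · rintro ⟨a, b⟩ ⟨h1, h2⟩
      simp only at h1 h2
      subst h1
      exact h2.symm
    · rintro ⟨a, b⟩ ⟨h1, -⟩ ⟨a', b'⟩ ⟨h1', -⟩ e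
      simp only at h1 h1' e
      rw [h1, h1', e]

theorem pat_spec {y : ℕ → V} {T : SimpleGraph V} (h : POk y T) :
    Good (pat y T) ∧ (y 1, y 2) ∈ dp (pat y T) ∧
    (∀ i < 24, y i ∈ (pat y T).neighborSet (y 1) ∪ (pat y T).neighborSet (y 2)) ∧
    (∀ a, (∀ i < 24, a ≠ y i ∧ ¬ T.Adj a (y i)) → (pat y T).neighborSet a = T.neighborSet a) ∧
    (dp (pat y T)).ncard ≤ (dp T).ncard + 118 := by
  have k1 := pok_one h
  have k2 := pok_two h
  obtain ⟨hT, hy, hd⟩ := h
  have h10 : y 1 ≠ y 0 := fun e => by have := hy 1 (by norm_num) 0 (by norm_num) e; omega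
  have h12 : y 1 ≠ y 2 := fun e => by have := hy 1 (by norm_num) 2 (by norm_num) e; omega
  obtain ⟨g1, g2, g3, g4, g5, E1, g6, g7⟩ := att_spec _ _ _ k1
  obtain ⟨f1, f2, f3, f4, f5, E2, f6, f7⟩ := att_spec _ _ _ k2
  rw [mv_nb_x h10] at g2
  have hw := g3 (y 2) (y_mem_l1 y (by norm_num) (by norm_num))
  rw [hw] at f2
  have hv1 : y 1 ∉ l2 y := fun hm => by
    obtain ⟨i, hi, hi', e⟩ := mem_l2 hm
    have := hy 1 (by norm_num) i (by omega) e
    omega
  have hv : (pat y T).neighborSet (y 1) = {y 0} ∪ {x | x ∈ l1 y} := by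
    unfold pat
    rw [f5 (y 1) h12 hv1 (fun x hx hadj => ?_), g2]
    have h3 : x ∈ (att (y 1) (l1 y) (mv T (y 1) (y 0))).neighborSet (y 1) := hadj
    rw [g2] at h3
    obtain ⟨i, hi, hi', rfl⟩ := mem_l2 hx
    rcases h3 with h3 | h3
    · have := hy i (by omega) 0 (by norm_num) h3
      omega
    · obtain ⟨j, hj, hj', e⟩ := mem_l1 h3
      have := hy i (by omega) j (by omega) e
      omega
  have hadj : (pat y T).Adj (y 1) (y 2) := by
    have : y 2 ∈ (pat y T).neighborSet (y 1) := by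
      rw [hv]
      exact Or.inr (y_mem_l1 y (by norm_num) (by norm_num))
    exact this
  have hlist : ∀ (l : List V), l.Nodup → l.length = 11 → ∀ c, c ∉ l →
      (({c} : Set V) ∪ {x | x ∈ l}).ncard = 12 := by
    classical
    intro l hl hlen c hc
    have e1 : (({c} : Set V) ∪ {x | x ∈ l}) = ((insert c l.toFinset : Finset V) : Set V) := by
      ext b
      simp
    rw [e1, Set.ncard_coe_finset, Finset.card_insert_of_notMem (by simpa using hc),
      List.toFinset_card_of_nodup hl, hlen]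
  have d1 : dg (pat y T) (y 1) = 12 := by
    unfold dg
    rw [hv]
    refine hlist _ (nodup_l1 hy) (len_l1 y) _ (fun hm => ?_)
    obtain ⟨i, hi, hi', e⟩ := mem_l1 hm
    have := hy 0 (by norm_num) i (by omega) e
    omega
  have d2 : dg (pat y T) (y 2) = 12 := by
    unfold dg pat
    rw [f2]
    exact hlist _ (nodup_l2 hy) (len_l2 y) _ hv1
  refine ⟨f1, ⟨hadj, d1, d2⟩, ?_, ?_, ?_⟩
  · intro i hi
    rcases Nat.lt_or_ge i 1 with h1 | h1
    · obtain rfl : i = 0 := by omega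
      exact Or.inl (by rw [hv]; exact Or.inl rfl)
    rcases Nat.lt_or_ge i 2 with h2 | h2
    · obtain rfl : i = 1 := by omega
      exact Or.inr hadj.symm
    rcases Nat.lt_or_ge i 13 with h3 | h3
    · exact Or.inl (by rw [hv]; exact Or.inr (y_mem_l1 y h2 h3))
    · refine Or.inr ?_
      unfold pat
      rw [f2]
      exact Or.inr (y_mem_l2 y h3 hi)
  · intro a ha
    have e0 : (mv T (y 1) (y 0)).neighborSet a = T.neighborSet a :=
      mv_nb_far (ha 1 (by norm_num)).1 (ha 0 (by norm_num)).1 (ha 1 (by norm_num)).2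
    have e1 : (att (y 1) (l1 y) (mv T (y 1) (y 0))).neighborSet a = T.neighborSet a := by
      rw [g5 a (ha 1 (by norm_num)).1 (fun hm => ?_) (fun x hx hadj' => ?_), e0]
      · obtain ⟨i, hi, hi', e⟩ := mem_l1 hm
        exact (ha i (by omega)).1 e
      · have h3 : x ∈ (mv T (y 1) (y 0)).neighborSet a := hadj'
        rw [e0] at h3
        obtain ⟨i, hi, hi', rfl⟩ := mem_l1 hx
        exact (ha i (by omega)).2 h3
    unfold pat
    rw [f5 a (ha 2 (by norm_num)).1 (fun hm => ?_) (fun x hx hadj' => ?_), e1]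
    · obtain ⟨i, hi, hi', e⟩ := mem_l2 hm
      exact (ha i (by omega)).1 e
    · have h3 : x ∈ (att (y 1) (l1 y) (mv T (y 1) (y 0))).neighborSet a := hadj'
      rw [e1] at h3
      obtain ⟨i, hi, hi', rfl⟩ := mem_l2 hx
      exact (ha i (by omega)).2 h3
  · have hsub : dp (pat y T) ⊆
        ((({p : V × V | p.1 = y 0 ∧ (pat y T).Adj p.1 p.2} ∪
          {p : V × V | p.2 = y 0 ∧ (pat y T).Adj p.1 p.2}) ∪
        ({p : V × V | p.1 = y 1 ∧ (pat y T).Adj p.1 p.2} ∪
          {p : V × V | p.2 = y 1 ∧ (pat y T).Adj p.1 p.2})) ∪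
        ({p : V × V | p.1 = y 2 ∧ (pat y T).Adj p.1 p.2} ∪
          {p : V × V | p.2 = y 2 ∧ (pat y T).Adj p.1 p.2})) ∪
        (((dp T ∪ {p : V × V | p.1 ∈ T.neighborSet (y 1) ∧ p.2 ∈ T.neighborSet (y 1) ∧
          p.1 ≠ p.2}) ∪ E1) ∪ E2) := by
      intro p hp
      rcases f7 p hp with a1 | a1 | a1 | a1
      · exact Or.inl (Or.inr (Or.inl ⟨a1, hp.1⟩))
      · exact Or.inl (Or.inr (Or.inr ⟨a1, hp.1⟩))
      · rcases g7 p a1 with a2 | a2 | a2 | a2
        · exact Or.inl (Or.inl (Or.inr (Or.inl ⟨a2, hp.1⟩)))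
        · exact Or.inl (Or.inl (Or.inr (Or.inr ⟨a2, hp.1⟩)))
        · rcases mv_dp hT.2 h10 (hd 1 (by norm_num)) a2 with a3 | a3 | a3 | a3
          · exact Or.inl (Or.inl (Or.inl (Or.inl ⟨a3, hp.1⟩)))
          · exact Or.inl (Or.inl (Or.inl (Or.inr ⟨a3, hp.1⟩)))
          · exact Or.inr (Or.inl (Or.inl (Or.inl a3)))
          · exact Or.inr (Or.inl (Or.inl (Or.inr a3)))
        · exact Or.inr (Or.inl (Or.inr a2))
      · exact Or.inr (Or.inr a1)
    refine le_trans (Set.ncard_le_ncard hsub (Set.toFinite _)) ?_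
    obtain ⟨c1, c2⟩ := cross_ncard f1.2 (y 0)
    obtain ⟨c3, c4⟩ := cross_ncard f1.2 (y 1)
    obtain ⟨c5, c6⟩ := cross_ncard f1.2 (y 2)
    have c7 := off_ncard (hd 1 (by norm_num))
    rw [len_l1] at g6
    rw [len_l2] at f6
    change ({p : V × V | p.1 = y 0 ∧ (pat y T).Adj p.1 p.2}).ncard ≤ 12 at c1
    change ({p : V × V | p.2 = y 0 ∧ (pat y T).Adj p.1 p.2}).ncard ≤ 12 at c2
    change ({p : V × V | p.1 = y 1 ∧ (pat y T).Adj p.1 p.2}).ncard ≤ 12 at c3
    change ({p : V × V | p.2 = y 1 ∧ (pat y T).Adj p.1 p.2}).ncard ≤ 12 at c4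
    change ({p : V × V | p.1 = y 2 ∧ (pat y T).Adj p.1 p.2}).ncard ≤ 12 at c5
    change ({p : V × V | p.2 = y 2 ∧ (pat y T).Adj p.1 p.2}).ncard ≤ 12 at c6
    have b1 := Set.ncard_union_le {p : V × V | p.1 = y 0 ∧ (pat y T).Adj p.1 p.2}
      {p : V × V | p.2 = y 0 ∧ (pat y T).Adj p.1 p.2}
    have b2 := Set.ncard_union_le {p : V × V | p.1 = y 1 ∧ (pat y T).Adj p.1 p.2}
      {p : V × V | p.2 = y 1 ∧ (pat y T).Adj p.1 p.2}
    have b3 := Set.ncard_union_le {p : V × V | p.1 = y 2 ∧ (pat y T).Adj p.1 p.2}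
      {p : V × V | p.2 = y 2 ∧ (pat y T).Adj p.1 p.2}
    refine le_trans (Set.ncard_union_le _ _) ?_
    refine le_trans (Nat.add_le_add (le_trans (Set.ncard_union_le _ _) (Nat.add_le_add
      (Set.ncard_union_le _ _) (le_refl _))) (le_trans (Set.ncard_union_le _ _) (Nat.add_le_add
      (le_trans (Set.ncard_union_le _ _) (Nat.add_le_add (Set.ncard_union_le _ _) (le_refl _)))
      (le_refl _)))) ?_
    omega

theorem pat_fib (y : ℕ → V) (H : SimpleGraph V) :
    {T : SimpleGraph V | POk y T ∧ pat y T = H}.ncard ≤ (2 * Nat.card V) ^ 23 := by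
  by_cases hy : y 1 = y 0
  · have : {T : SimpleGraph V | POk y T ∧ pat y T = H} = ∅ := by
      ext T
      simp only [Set.mem_setOf_eq, Set.mem_empty_iff_false, iff_false]
      rintro ⟨h, -⟩
      have := h.2.1 1 (by norm_num) 0 (by norm_num) hy
      omega
    rw [this]; simp
  · have s2 := att_fib (y 2) (l2 y) H
    rw [len_l2] at s2
    have s1 : {G : SimpleGraph V | Ok (y 1) (l1 y) G ∧ Ok (y 2) (l2 y) (att (y 1) (l1 y) G) ∧
        att (y 2) (l2 y) (att (y 1) (l1 y) G) = H}.ncard ≤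
        (2 * Nat.card V) ^ 11 * (2 * Nat.card V) ^ 11 := by
      refine le_trans (ncard_fib (fun G => att (y 1) (l1 y) G) _
        {T : SimpleGraph V | Ok (y 2) (l2 y) T ∧ att (y 2) (l2 y) T = H}
        ((2 * Nat.card V) ^ 11) ?_ ?_) (Nat.mul_le_mul_left _ s2)
      · rintro G ⟨-, h2, h3⟩
        exact ⟨h2, h3⟩
      · rintro G' -
        have s3 := att_fib (y 1) (l1 y) G'
        rw [len_l1] at s3
        refine le_trans (Set.ncard_le_ncard ?_ (Set.toFinite _)) s3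
        rintro G ⟨⟨h1, -⟩, h2⟩
        exact ⟨h1, h2⟩
    have s0 : {T : SimpleGraph V | POk y T ∧ pat y T = H}.ncard ≤
        2 * Nat.card V * ((2 * Nat.card V) ^ 11 * (2 * Nat.card V) ^ 11) := by
      refine le_trans (ncard_fib (fun T => mv T (y 1) (y 0)) _
        {G : SimpleGraph V | Ok (y 1) (l1 y) G ∧ Ok (y 2) (l2 y) (att (y 1) (l1 y) G) ∧
          att (y 2) (l2 y) (att (y 1) (l1 y) G) = H} (2 * Nat.card V) ?_ ?_)
        (Nat.mul_le_mul_left _ s1)
      · rintro T ⟨h1, h2⟩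
        exact ⟨pok_one h1, pok_two h1, h2⟩
      · rintro G ⟨h1, -⟩
        refine le_trans (Set.ncard_le_ncard ?_ (Set.toFinite _)) (mv_fib G h1.1.1 hy)
        rintro T ⟨⟨h3, -⟩, h4⟩
        exact ⟨h3.1.1, h3.2.2 1 (by norm_num), h4⟩
    refine le_trans s0 (le_of_eq ?_)
    ring

end Pool.Agent.EMT.SW
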