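import Pool.Agent.EMT.SW.Defs

set_option autoImplicit false

/-!
# There is a tree of maximum degree at most twelve on `n` vertices
-/

namespace Pool.Agent.EMT.SW

theorem good_nonempty (n : ℕ) (hn : 1 ≤ n) : {T : SimpleGraph (Fin n) | Good T}.Nonempty := by
  obtain ⟨m, rfl⟩ : ∃ m, n = m + 1 := ⟨n - 1, by omega⟩
  obtain ⟨T, hT, hTree⟩ := (SimpleGraph.pathGraph_connected m).exists_isTree_le
  refine ⟨T, hTree, fun a => ?_⟩
  have h1 : (T.neighborSet a).ncard ≤ (({a.val - 1, a.val + 1} : Set ℕ)).ncard := by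
    refine Set.ncard_le_ncard_of_injOn Fin.val ?_ (Fin.val_injective.injOn) (Set.toFinite _)
    intro b hb
    have h2 := SimpleGraph.pathGraph_adj.1 (hT hb)
    simp only [Set.mem_insert_iff, Set.mem_singleton_iff]
    omega
  have h3 : (({a.val - 1, a.val + 1} : Set ℕ)).ncard ≤ 2 :=
    (Set.ncard_insert_le _ _).trans (by rw [Set.ncard_singleton])
  unfold dg
  omega

end Pool.Agent.EMT.SW
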