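import Pool.Agent.EMT.SW.Pat
import Pool.Agent.EMT.SW.Low
import Pool.Agent.EMT.SW.Cnt1

set_option autoImplicit false

/-!
# One more pair of adjacent vertices of degree twelve
-/

namespace Pool.Agent.EMT.SW

variable {V : Type} [Finite V]

/-- trees with a `j`-tuple of ordered pairs of adjacent vertices of degree twelve -/
def DD (V : Type) (j : ℕ) : Set (SimpleGraph V × (Fin j → V × V)) :=
  {q | Good q.1 ∧ (dp q.1).ncard ≤ 118 * j ∧ ∀ i, q.2 i ∈ dp q.1}

/-- extend a function on `Fin 24` -/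
def ex (y : Fin 24 → V) : ℕ → V := fun i => if h : i < 24 then y ⟨i, h⟩ else y 0

omit [Finite V] in
theorem ex_lt (y : Fin 24 → V) {i : ℕ} (h : i < 24) : ex y i = y ⟨i, h⟩ := by
  unfold ex
  rw [dif_pos h]

/-- the pattern avoids the closed neighbourhoods of the pairs -/
def Away {j : ℕ} (q : SimpleGraph V × (Fin j → V × V)) (c : V) : Prop :=
  ∀ l, c ≠ (q.2 l).1 ∧ c ≠ (q.2 l).2 ∧ ¬ q.1.Adj (q.2 l).1 c ∧ ¬ q.1.Adj (q.2 l).2 c

/-- trees, pairs, patterns -/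
def SS (V : Type) [Finite V] (j : ℕ) :
    Set ((SimpleGraph V × (Fin j → V × V)) × (Fin 24 → V)) :=
  {s | s.1 ∈ DD V j ∧ POk (ex s.2) s.1.1 ∧ ∀ i, Away s.1 (s.2 i)}

/-- apply the pattern -/
def FF {j : ℕ} (s : (SimpleGraph V × (Fin j → V × V)) × (Fin 24 → V)) :
    SimpleGraph V × (Fin (j + 1) → V × V) :=
  (pat (ex s.2) s.1.1, Fin.cons (ex s.2 1, ex s.2 2) s.1.2)

theorem ff_mem {j : ℕ} {s : (SimpleGraph V × (Fin j → V × V)) × (Fin 24 → V)}
    (hs : s ∈ SS V j) : FF s ∈ DD V (j + 1) := by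
  obtain ⟨⟨h1, h2, h3⟩, h4, h5⟩ := hs
  obtain ⟨g1, g2, g3, g4, g5⟩ := pat_spec h4
  refine ⟨g1, ?_, fun i => ?_⟩
  · change (dp (pat (ex s.2) s.1.1)).ncard ≤ _
    omega
  · refine Fin.cases ?_ (fun l => ?_) i
    · exact g2
    · change s.1.2 l ∈ dp (pat (ex s.2) s.1.1)
      have e1 : (pat (ex s.2) s.1.1).neighborSet (s.1.2 l).1 = s.1.1.neighborSet (s.1.2 l).1 := by
        refine g4 _ (fun i hi => ?_)
        rw [ex_lt _ hi]
        obtain ⟨a1, a2, a3, a4⟩ := h5 ⟨i, hi⟩ l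
        exact ⟨a1.symm, a3⟩
      have e2 : (pat (ex s.2) s.1.1).neighborSet (s.1.2 l).2 = s.1.1.neighborSet (s.1.2 l).2 := by
        refine g4 _ (fun i hi => ?_)
        rw [ex_lt _ hi]
        obtain ⟨a1, a2, a3, a4⟩ := h5 ⟨i, hi⟩ l
        exact ⟨a2.symm, a4⟩
      obtain ⟨b1, b2, b3⟩ := h3 l
      refine ⟨?_, ?_, ?_⟩
      · have : (s.1.2 l).2 ∈ (pat (ex s.2) s.1.1).neighborSet (s.1.2 l).1 := by
          rw [e1]
          exact b1
        exact this
      · unfold dg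
        rw [e1]
        exact b2
      · unfold dg
        rw [e2]
        exact b3

theorem ff_fib {j : ℕ} {b : SimpleGraph V × (Fin (j + 1) → V × V)} (hb : b ∈ DD V (j + 1)) :
    {s | s ∈ SS V j ∧ FF s = b}.ncard ≤ (2 * Nat.card V) ^ 23 * 24 ^ 24 := by
  obtain ⟨b1, b2, b3⟩ := hb
  set A : Set V := b.1.neighborSet (b.2 0).1 ∪ b.1.neighborSet (b.2 0).2 with hA
  have hAc : A.ncard ≤ 24 := by
    refine le_trans (Set.ncard_union_le _ _) ?_
    have h1 : (b.1.neighborSet (b.2 0).1).ncard = 12 := (b3 0).2.1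
    have h2 : (b.1.neighborSet (b.2 0).2).ncard = 12 := (b3 0).2.2
    omega
  refine le_trans (ncard_fib (fun s => s.2) _ {y : Fin 24 → V | ∀ i, y i ∈ A}
    ((2 * Nat.card V) ^ 23) ?_ ?_) (Nat.mul_le_mul_left _ ?_)
  · rintro s ⟨h1, h2⟩ i
    obtain ⟨-, -, g3, -, -⟩ := pat_spec h1.2.1
    have := g3 i i.2
    rw [ex_lt _ i.2] at this
    rw [hA, ← h2]
    exact this
  · rintro y -
    refine le_trans (Set.ncard_le_ncard_of_injOn (fun s => s.1.1) ?_ ?_ (Set.toFinite _))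
      (pat_fib (ex y) b.1)
    · rintro s ⟨⟨h1, h2⟩, h3⟩
      have h3' : s.2 = y := h3
      subst h3'
      exact ⟨h1.2.1, congrArg Prod.fst h2⟩
    · rintro s ⟨⟨h1, h2⟩, h3⟩ s' ⟨⟨h1', h2'⟩, h3'⟩ e
      have e2 : s.1.2 = s'.1.2 := by
        have h4 : (Fin.cons (ex s.2 1, ex s.2 2) s.1.2 : Fin (j + 1) → V × V) =
            Fin.cons (ex s'.2 1, ex s'.2 2) s'.1.2 :=
          congrArg Prod.snd (h2.trans h2'.symm)
        funext l
        have := congrFun h4 l.succ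
        simpa using this
      exact Prod.ext (Prod.ext e e2) (h3.trans h3'.symm)
  · rw [ncard_pi]
    exact Nat.pow_le_pow_left hAc 24

theorem away_card {j : ℕ} {q : SimpleGraph V × (Fin j → V × V)} (hq : q ∈ DD V j) :
    {c | ¬ Away q c}.ncard ≤ 26 * j := by
  classical
  obtain ⟨q1, q2, q3⟩ := hq
  have hsub : {c | ¬ Away q c} ⊆ ⋃ l : Fin j,
      (insert (q.2 l).1 (q.1.neighborSet (q.2 l).1) ∪
        insert (q.2 l).2 (q.1.neighborSet (q.2 l).2)) := by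
    intro c hc
    have hc' : ¬ Away q c := hc
    unfold Away at hc'
    push Not at hc'
    obtain ⟨l, hl⟩ := hc'
    rw [Set.mem_iUnion]
    refine ⟨l, ?_⟩
    by_cases h1 : c = (q.2 l).1
    · exact Or.inl (Or.inl h1)
    by_cases h2 : c = (q.2 l).2
    · exact Or.inr (Or.inl h2)
    by_cases h3 : q.1.Adj (q.2 l).1 c
    · exact Or.inl (Or.inr h3)
    · exact Or.inr (Or.inr (hl h1 h2 h3))
  refine le_trans (Set.ncard_le_ncard hsub (Set.toFinite _)) ?_
  have h1 : ∀ l : Fin j, (insert (q.2 l).1 (q.1.neighborSet (q.2 l).1) ∪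
        insert (q.2 l).2 (q.1.neighborSet (q.2 l).2)).ncard ≤ 26 := by
    intro l
    have a1 := Set.ncard_insert_le (q.2 l).1 (q.1.neighborSet (q.2 l).1)
    have a2 := Set.ncard_insert_le (q.2 l).2 (q.1.neighborSet (q.2 l).2)
    have a3 : (q.1.neighborSet (q.2 l).1).ncard = 12 := (q3 l).2.1
    have a4 : (q.1.neighborSet (q.2 l).2).ncard = 12 := (q3 l).2.2
    have a5 := Set.ncard_union_le (insert (q.2 l).1 (q.1.neighborSet (q.2 l).1))
      (insert (q.2 l).2 (q.1.neighborSet (q.2 l).2))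
    omega
  have h2 : ∀ s : Finset (Fin j), (⋃ l ∈ s,
      (insert (q.2 l).1 (q.1.neighborSet (q.2 l).1) ∪
        insert (q.2 l).2 (q.1.neighborSet (q.2 l).2))).ncard ≤ 26 * s.card := by
    intro s
    induction s using Finset.induction_on with
    | empty => simp
    | insert a s ha ih =>
      rw [Finset.set_biUnion_insert, Finset.card_insert_of_notMem ha]
      refine le_trans (Set.ncard_union_le _ _) ?_
      have := h1 a
      omega
  have h3 := h2 Finset.univ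
  simp only [Finset.mem_univ, Set.iUnion_true, Finset.card_univ, Fintype.card_fin] at h3
  exact h3

theorem many {j : ℕ} (hj : 4 * (26 * j + 23) ≤ Nat.card V)
    {q : SimpleGraph V × (Fin j → V × V)} (hq : q ∈ DD V j) :
    ∃ c : ℕ, Nat.card V ≤ 4 * c ∧ c ^ 24 ≤ {y | (q, y) ∈ SS V j}.ncard := by
  set Y : Set V := {x | dg q.1 x ≤ 2} \ {c | ¬ Away q c} with hY
  have h1 : {x | dg q.1 x ≤ 2}.ncard ≤ Y.ncard + {c | ¬ Away q c}.ncard := by
    refine le_trans (Set.ncard_le_ncard (t := Y ∪ {c | ¬ Away q c}) ?_ (Set.toFinite _))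
      (Set.ncard_union_le _ _)
    intro c hc
    by_cases h : Away q c
    · exact Or.inl ⟨hc, fun h' => h' h⟩
    · exact Or.inr h
  have h2 := away_card hq
  have h3 := low hq.1.1
  refine ⟨Y.ncard + 1 - 24, by omega, ?_⟩
  refine le_trans (Nat.pow_sub_le_descFactorial Y.ncard 24) ?_
  rw [← ncard_inj]
  refine Set.ncard_le_ncard ?_ (Set.toFinite _)
  rintro y ⟨hy1, hy2⟩
  refine ⟨hq, ⟨hq.1, fun i hi i' hi' e => ?_, fun i hi => ?_⟩, fun i => ?_⟩
  · change ex y i = ex y i' at e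
    rw [ex_lt _ hi, ex_lt _ hi'] at e
    have := hy1 e
    simpa using this
  · change dg q.1 (ex y i) ≤ 2
    rw [ex_lt _ hi]
    exact (hy2 _).1
  · by_contra h
    exact (hy2 i).2 h

theorem step (j : ℕ) (hj : 4 * (26 * j + 23) ≤ Nat.card V) :
    (DD V j).ncard * Nat.card V ≤ 4 ^ 24 * 24 ^ 24 * 2 ^ 23 * (DD V (j + 1)).ncard := by
  have hpos : 0 < Nat.card V := by omega
  have h1 : (SS V j).ncard ≤ (2 * Nat.card V) ^ 23 * 24 ^ 24 * (DD V (j + 1)).ncard :=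
    ncard_fib FF _ _ _ (fun s hs => ff_mem hs) (fun b hb => ff_fib hb)
  have h2 : (DD V j).ncard * ((Nat.card V + 3) / 4) ^ 24 ≤ (SS V j).ncard := by
    refine ncard_fib_ge _ _ _ (fun q hq => ?_)
    obtain ⟨c, hc1, hc2⟩ := many hj hq
    exact le_trans (Nat.pow_le_pow_left (by omega) 24) hc2
  have h3 : Nat.card V ^ 24 ≤ 4 ^ 24 * ((Nat.card V + 3) / 4) ^ 24 := by
    rw [← mul_pow]
    exact Nat.pow_le_pow_left (by omega) 24
  have h4 : (DD V j).ncard * Nat.card V * Nat.card V ^ 23 ≤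
      4 ^ 24 * 24 ^ 24 * 2 ^ 23 * (DD V (j + 1)).ncard * Nat.card V ^ 23 := by
    calc (DD V j).ncard * Nat.card V * Nat.card V ^ 23
        = (DD V j).ncard * Nat.card V ^ 24 := by ring
      _ ≤ (DD V j).ncard * (4 ^ 24 * ((Nat.card V + 3) / 4) ^ 24) := Nat.mul_le_mul_left _ h3
      _ = 4 ^ 24 * ((DD V j).ncard * ((Nat.card V + 3) / 4) ^ 24) := by ring
      _ ≤ 4 ^ 24 * ((2 * Nat.card V) ^ 23 * 24 ^ 24 * (DD V (j + 1)).ncard) :=
          Nat.mul_le_mul_left _ (le_trans h2 h1)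
      _ = 4 ^ 24 * 24 ^ 24 * 2 ^ 23 * (DD V (j + 1)).ncard * Nat.card V ^ 23 := by
          rw [mul_pow]; ring
  exact Nat.le_of_mul_le_mul_right h4 (pow_pos hpos 23)

end Pool.Agent.EMT.SW
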