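import Pool.Agent.EMT.SW.Defs

set_option autoImplicit false

namespace Pool.Agent.EMT.SW

variable {V : Type} [Finite V]

omit [Finite V] in
private lemma reach {T : SimpleGraph V} {x v y : V} (hxy : T.Adj x y) (p : V → V)
    (hpx : p x = y) (hp : ∀ a, a ≠ x → p a = a) {a b : V} (w : T.Walk a b) :
    (mv T x v).Reachable (p a) (p b) := by
  induction w with
  | nil => exact SimpleGraph.Reachable.refl _
  | @cons a b c h w ih =>
    refine SimpleGraph.Reachable.trans ?_ ih
    by_cases ha : a = x
    · subst ha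
      have hb : b ≠ a := h.ne'
      rw [hpx, hp b hb]
      by_cases hyb : y = b
      · rw [hyb]
      · exact SimpleGraph.Adj.reachable ((mv_adj_ne hxy.ne' hb).2 ⟨hyb, Or.inr ⟨hxy.symm, h.symm⟩⟩)
    · by_cases hb : b = x
      · subst hb
        rw [hpx, hp a ha]
        by_cases hya : a = y
        · rw [hya]
        · exact SimpleGraph.Adj.reachable ((mv_adj_ne ha hxy.ne').2 ⟨hya, Or.inr ⟨h, hxy.symm⟩⟩)
      · rw [hp a ha, hp b hb]
        exact SimpleGraph.Adj.reachable ((mv_adj_ne ha hb).2 ⟨h.ne, Or.inl h⟩)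

omit [Finite V] in
private lemma conn {T : SimpleGraph V} (hT : T.IsTree) {x v : V} (hxv : x ≠ v) :
    (mv T x v).Connected := by
  classical
  obtain ⟨y, hy⟩ : ∃ y, T.Adj x y := by
    obtain ⟨w⟩ := hT.1.preconnected x v
    cases w with
    | nil => exact absurd rfl hxv
    | cons h _ => exact ⟨_, h⟩
  have key : ∀ a, (mv T x v).Reachable a v := by
    intro a
    by_cases ha : a = x
    · subst ha
      exact SimpleGraph.Adj.reachable ((mv_adj_x hxv).2 rfl)
    · obtain ⟨w⟩ := hT.1.preconnected a v
      have h := reach (v := v) hy (fun c => if c = x then y else c) (by simp)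
        (by intro c hc; simp [hc]) w
      simpa [ha, hxv.symm] using h
  exact { preconnected := fun a b => (key a).trans (key b).symm, nonempty := ⟨x⟩ }

/-- moving a vertex of degree at most two gives a tree. -/
theorem mv_tree {T : SimpleGraph V} (hT : T.IsTree) {x v : V} (hxv : x ≠ v) (hd : dg T x ≤ 2) :
    (mv T x v).IsTree := by
  classical
  have hc := conn hT hxv
  have h1 := hc.card_vert_le_card_edgeSet_add_one
  have h2 := (SimpleGraph.isTree_iff_connected_and_card.1 hT).2
  rw [SimpleGraph.isTree_iff_connected_and_card]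
  refine ⟨hc, ?_⟩
  suffices h : Nat.card (mv T x v).edgeSet ≤ Nat.card T.edgeSet by omega
  change (mv T x v).edgeSet.ncard ≤ T.edgeSet.ncard
  have hfin : ∀ S : Set (Sym2 V), S.Finite := fun S => Set.toFinite S
  obtain ⟨A, hA⟩ : ∃ A : Set (Sym2 V), A = {e | e ∈ T.edgeSet ∧ x ∉ e} := ⟨_, rfl⟩
  have hAx : ∀ u, s(x, u) ∉ A := by
    intro u hu
    rw [hA] at hu
    exact hu.2 (Sym2.mem_mk_left x u)
  have hnb : (T.neighborSet x).ncard ≤ 2 := hd
  obtain ⟨y, hy⟩ : ∃ y, T.Adj x y := by
    obtain ⟨w⟩ := hT.1.preconnected x v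
    cases w with
    | nil => exact absurd rfl hxv
    | cons h _ => exact ⟨_, h⟩
  have hpos : 0 < (T.neighborSet x).ncard :=
    (Set.ncard_pos (Set.toFinite _)).2 ⟨y, hy⟩
  have hcase : (T.neighborSet x).ncard = 1 ∨ (T.neighborSet x).ncard = 2 := by omega
  -- classification of the edges of the new graph
  have hE : ∀ e ∈ (mv T x v).edgeSet, e ∈ A ∨ e = s(x, v) ∨
      ∃ a b, e = s(a, b) ∧ a ≠ b ∧ T.Adj x a ∧ T.Adj x b := by
    intro e
    induction e using Sym2.ind with
    | _ a b =>
      intro he
      rw [SimpleGraph.mem_edgeSet] at he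
      obtain ⟨h0, ⟨ha, hb⟩ | ⟨ha, hb⟩ | ⟨ha, hb, h | ⟨h3, h4⟩⟩⟩ := he
      · right; left; rw [ha, hb]
      · right; left; rw [ha, hb, Sym2.eq_swap]
      · left
        rw [hA]
        refine ⟨h, ?_⟩
        intro hx
        rcases Sym2.mem_iff.1 hx with h5 | h5
        · exact ha h5.symm
        · exact hb h5.symm
      · right; right
        exact ⟨a, b, rfl, h0, h3.symm, h4.symm⟩
  rcases hcase with hk | hk
  · obtain ⟨y', hy'⟩ := Set.ncard_eq_one.1 hk
    have hsub : (mv T x v).edgeSet ⊆ insert s(x, v) A := by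
      intro e he
      rcases hE e he with h | h | ⟨a, b, -, hab, ha, hb⟩
      · exact Set.mem_insert_of_mem _ h
      · rw [h]; exact Set.mem_insert _ _
      · have ha' : a ∈ T.neighborSet x := ha
        have hb' : b ∈ T.neighborSet x := hb
        rw [hy', Set.mem_singleton_iff] at ha' hb'
        exact absurd (ha'.trans hb'.symm) hab
    have hsup : insert s(x, y) A ⊆ T.edgeSet := by
      intro e he
      rcases Set.mem_insert_iff.1 he with h | h
      · rw [h]; exact hy
      · rw [hA] at h; exact h.1
    calc (mv T x v).edgeSet.ncard ≤ (insert s(x, v) A).ncard := Set.ncard_le_ncard hsub (hfin _)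
      _ ≤ A.ncard + 1 := Set.ncard_insert_le _ _
      _ = (insert s(x, y) A).ncard := (Set.ncard_insert_of_notMem (hAx y) (hfin _)).symm
      _ ≤ T.edgeSet.ncard := Set.ncard_le_ncard hsup (hfin _)
  · obtain ⟨y', z', hyz, hnn⟩ := Set.ncard_eq_two.1 hk
    have hy1 : T.Adj x y' := by
      have : y' ∈ T.neighborSet x := by rw [hnn]; exact Set.mem_insert _ _
      exact this
    have hz1 : T.Adj x z' := by
      have : z' ∈ T.neighborSet x := by rw [hnn]; exact Set.mem_insert_of_mem _ rfl
      exact this
    have hsub : (mv T x v).edgeSet ⊆ insert s(x, v) (insert s(y', z') A) := by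
      intro e he
      rcases hE e he with h | h | ⟨a, b, heq, hab, ha, hb⟩
      · exact Set.mem_insert_of_mem _ (Set.mem_insert_of_mem _ h)
      · rw [h]; exact Set.mem_insert _ _
      · have ha' : a ∈ T.neighborSet x := ha
        have hb' : b ∈ T.neighborSet x := hb
        rw [hnn, Set.mem_insert_iff, Set.mem_singleton_iff] at ha' hb'
        refine Set.mem_insert_of_mem _ ?_
        rw [heq]
        rcases ha' with h5 | h5 <;> rcases hb' with h6 | h6
        · exact absurd (h5.trans h6.symm) hab
        · rw [h5, h6]; exact Set.mem_insert _ _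
        · rw [h5, h6, Sym2.eq_swap]; exact Set.mem_insert _ _
        · exact absurd (h5.trans h6.symm) hab
    have hsup : insert s(x, y') (insert s(x, z') A) ⊆ T.edgeSet := by
      intro e he
      rcases Set.mem_insert_iff.1 he with h | h
      · rw [h]; exact hy1
      · rcases Set.mem_insert_iff.1 h with h | h
        · rw [h]; exact hz1
        · rw [hA] at h; exact h.1
    have hn2 : s(x, y') ∉ insert s(x, z') A := by
      intro h
      rcases Set.mem_insert_iff.1 h with h | h
      · rw [Sym2.eq_iff] at h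
        rcases h with ⟨-, h⟩ | ⟨h, -⟩
        · exact hyz h
        · exact hz1.ne h
      · exact hAx y' h
    calc (mv T x v).edgeSet.ncard ≤ (insert s(x, v) (insert s(y', z') A)).ncard :=
          Set.ncard_le_ncard hsub (hfin _)
      _ ≤ (insert s(y', z') A).ncard + 1 := Set.ncard_insert_le _ _
      _ ≤ (A.ncard + 1) + 1 := by gcongr; exact Set.ncard_insert_le _ _
      _ = (insert s(x, z') A).ncard + 1 := by rw [Set.ncard_insert_of_notMem (hAx z') (hfin _)]
      _ = (insert s(x, y') (insert s(x, z') A)).ncard :=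
          (Set.ncard_insert_of_notMem hn2 (hfin _)).symm
      _ ≤ T.edgeSet.ncard := Set.ncard_le_ncard hsup (hfin _)

end Pool.Agent.EMT.SW
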